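import Pool.Agent.Helper13.MG.Grp

/-!
# One sequence of groups, and the zero-one law
-/

set_option autoImplicit false

open scoped Classical

namespace Pool.Agent.Helper13.MG

open Pool.Agent.R893.TP2 Pool.Agent.H254R3.IN

/-- The direct product of `m` copies of `X` with `Y`. -/
def stepG (X : FG) (m : ℕ) (Y : FG) : FG := ⟨(Fin m → X.G) × Y.G⟩

/-- The sequence `Γ_0 = G_0`, `Γ_{j+1} = Γ_j ^ m_j × G_{j+1}` of finite groups. -/
def Gam (G : ℕ → FG) (m : ℕ → ℕ) : ℕ → FG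
  | 0 => G 0
  | j + 1 => stepG (Gam G m j) (m j) (G (j + 1))

/-- For all Sylow `p`-subgroups `P` of `G` the numbers of the `K`-fixed irreducible characters of
degree prime to `p` of `G` and of `N_G(P)` agree up to the factor `|G|^ε`. -/
def Near (p : ℕ) (K : Subgroup (RingAut ℂ)) (ε : ℝ) (G : Type) [Group G] : Prop :=
  ∀ P : Sylow p G,
    (kP p (K : Set (RingAut ℂ)) G : ℝ) ≤ (Nat.card G : ℝ) ^ ε * kP p (K : Set (RingAut ℂ)) (Nor P) ∧
    (kP p (K : Set (RingAut ℂ)) (Nor P) : ℝ) ≤ (Nat.card G : ℝ) ^ ε * kP p (K : Set (RingAut ℂ)) G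

theorem near_of_MG {p : ℕ} [Fact p.Prime] {A K : Subgroup (RingAut ℂ)} (hK : K ≤ A) {ε : ℝ}
    (hε : 0 < ε) {G : Type} [Group G] [Finite G] (h : MG p A G) : Near p K ε G := by
  intro P
  have h1 := (MG_iff A G).1 h K hK
  rw [kN_eq (K : Set (RingAut ℂ)) P] at h1
  rw [h1]
  have h2 : (1 : ℝ) ≤ (Nat.card G : ℝ) ^ ε :=
    Real.one_le_rpow (by exact_mod_cast Nat.card_pos) hε.le
  have h3 : (0 : ℝ) ≤ (kP p (K : Set (RingAut ℂ)) (Nor P) : ℝ) := Nat.cast_nonneg _
  constructor <;> nlinarith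

theorem card_gam (G : ℕ → FG) (m : ℕ → ℕ) (j : ℕ) :
    Nat.card (Gam G m (j + 1)).G = Nat.card (Gam G m j).G ^ m j * Nat.card (G (j + 1)).G := by
  change Nat.card ((Fin (m j) → (Gam G m j).G) × (G (j + 1)).G) = _
  rw [Nat.card_prod, Nat.card_fun, Nat.card_eq_fintype_card (α := Fin (m j)), Fintype.card_fin]

theorem MulFun.gam {F : ∀ (G : Type) [Group G] [Finite G], ℕ} (h : MulFun F) (G : ℕ → FG)
    (m : ℕ → ℕ) (j : ℕ) :
    F (Gam G m (j + 1)).G = F (Gam G m j).G ^ m j * F (G (j + 1)).G := by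
  change F ((Fin (m j) → (Gam G m j).G) × (G (j + 1)).G) = _
  rw [h.prod, h.pow]

theorem tower_gam {p : ℕ} [Fact p.Prime] (K : Set (RingAut ℂ)) (G : ℕ → FG) (m : ℕ → ℕ)
    (hm : ∀ j, 8 ^ (j + 1) * Nat.card (Gam G m j).G * Nat.card (G (j + 1)).G ≤ m j) :
    Tower (fun j => Nat.card (Gam G m j).G) (fun j => Nat.card (G j).G) m
      (fun j => kP p K (Gam G m j).G) (fun j => kN p K (Gam G m j).G)
      (fun j => kP p K (G j).G) (fun j => kN p K (G j).G) where
  n0 := rfl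
  ns := card_gam G m
  a0 := rfl
  as := (mulFun_kP (p := p) K).gam G m
  b0 := rfl
  bs := (mulFun_kN (p := p) K).gam G m
  hx := fun j => ⟨kP_pos Fact.out K _, kP_le p K _⟩
  hy := fun j => ⟨kN_pos K _, kN_le p K _⟩
  hm := hm

theorem mg_gam {p : ℕ} [Fact p.Prime] (A : Subgroup (RingAut ℂ)) (G : ℕ → FG) (m : ℕ → ℕ)
    (h : ∀ i, MG p A (G i).G) (j : ℕ) : MG p A (Gam G m j).G := by
  induction j with
  | zero => exact h 0
  | succ j ih =>
    rw [MG_iff]
    intro K hK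
    have h1 := (mulFun_kP (p := p) (K : Set (RingAut ℂ))).gam G m j
    have h2 := (mulFun_kN (p := p) (K : Set (RingAut ℂ))).gam G m j
    rw [h1, h2, (MG_iff A _).1 ih K hK, (MG_iff A _).1 (h (j + 1)) K hK]

/-- For all Sylow `p`-subgroups `P` of `G` the numbers of the `K`-fixed irreducible characters of
degree prime to `p` of `G` and of `N_G(P)` are equal. -/
def Same (p : ℕ) (K : Subgroup (RingAut ℂ)) (G : Type) [Group G] : Prop :=
  ∀ P : Sylow p G, kP p (K : Set (RingAut ℂ)) G = kP p (K : Set (RingAut ℂ)) (Nor P)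

theorem same_iff {p : ℕ} [Fact p.Prime] (K : Subgroup (RingAut ℂ)) (G : Type) [Group G]
    [Finite G] : Same p K G ↔ kP p (K : Set (RingAut ℂ)) G = kN p (K : Set (RingAut ℂ)) G := by
  constructor
  · intro h
    obtain ⟨P⟩ : Nonempty (Sylow p G) := inferInstance
    rw [kN_eq (K : Set (RingAut ℂ)) P]
    exact h P
  · intro h P
    rw [← kN_eq (K : Set (RingAut ℂ)) P]
    exact h

theorem near_of_same {p : ℕ} [Fact p.Prime] {K : Subgroup (RingAut ℂ)} {ε : ℝ}
    (hε : 0 < ε) {G : Type} [Group G] [Finite G] (h : Same p K G) : Near p K ε G := by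
  intro P
  rw [h P]
  have h2 : (1 : ℝ) ≤ (Nat.card G : ℝ) ^ ε :=
    Real.one_le_rpow (by exact_mod_cast Nat.card_pos) hε.le
  have h3 : (0 : ℝ) ≤ (kP p (K : Set (RingAut ℂ)) (Nor P) : ℝ) := Nat.cast_nonneg _
  constructor <;> nlinarith

theorem same_gam {p : ℕ} [Fact p.Prime] (K : Subgroup (RingAut ℂ)) (G : ℕ → FG) (m : ℕ → ℕ)
    (h : ∀ i, Same p K (G i).G) (j : ℕ) : Same p K (Gam G m j).G := by
  induction j with
  | zero => exact h 0
  | succ j ih =>
    rw [same_iff]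
    have h1 := (mulFun_kP (p := p) (K : Set (RingAut ℂ))).gam G m j
    have h2 := (mulFun_kN (p := p) (K : Set (RingAut ℂ))).gam G m j
    rw [h1, h2, (same_iff K _).1 ih, (same_iff K _).1 (h (j + 1))]

theorem one_seq_K {p : ℕ} [Fact p.Prime] (K : Subgroup (RingAut ℂ)) (G : ℕ → FG) (m : ℕ → ℕ)
    (hm : ∀ j, 8 ^ (j + 1) * Nat.card (Gam G m j).G * Nat.card (G (j + 1)).G ≤ m j)
    (h : ∀ ε : ℝ, 0 < ε → ∀ i : ℕ, ∃ j, i ≤ j ∧ Near p K ε (Gam G m j).G) (i : ℕ) :
    Same p K (G i).G := by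
  rw [same_iff]
  refine (tower_gam (p := p) (K : Set (RingAut ℂ)) G m hm).main ?_ i
  intro ε hε i
  obtain ⟨j, hj, hN⟩ := h ε hε i
  obtain ⟨P⟩ : Nonempty (Sylow p (Gam G m j).G) := inferInstance
  refine ⟨j, hj, ?_⟩
  have h1 := hN P
  rw [← kN_eq (K : Set (RingAut ℂ)) P] at h1
  exact h1

/-- The main equivalence. -/
theorem one_seq {p : ℕ} [Fact p.Prime] (A : Subgroup (RingAut ℂ)) (G : ℕ → FG) (m : ℕ → ℕ)
    (hm : ∀ j, 8 ^ (j + 1) * Nat.card (Gam G m j).G * Nat.card (G (j + 1)).G ≤ m j)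
    (h : ∀ K : Subgroup (RingAut ℂ), K ≤ A → ∀ ε : ℝ, 0 < ε → ∀ i : ℕ, ∃ j, i ≤ j ∧
      Near p K ε (Gam G m j).G) (i : ℕ) : MG p A (G i).G := by
  rw [MG_iff]
  intro K hK
  refine (tower_gam (p := p) (K : Set (RingAut ℂ)) G m hm).main ?_ i
  intro ε hε i
  obtain ⟨j, hj, hN⟩ := h K hK ε hε i
  obtain ⟨P⟩ : Nonempty (Sylow p (Gam G m j).G) := inferInstance
  refine ⟨j, hj, ?_⟩
  have h1 := hN P
  rw [← kN_eq (K : Set (RingAut ℂ)) P] at h1
  exact h1

/-! ### existence of the exponents and of the enumeration -/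

/-- The sequence with the smallest exponents, and the exponents. -/
noncomputable def GamE (G : ℕ → FG) : ℕ → FG
  | 0 => G 0
  | j + 1 => stepG (GamE G j) (8 ^ (j + 1) * Nat.card (GamE G j).G * Nat.card (G (j + 1)).G)
      (G (j + 1))

theorem exists_m (G : ℕ → FG) : ∃ m : ℕ → ℕ, ∀ j,
    8 ^ (j + 1) * Nat.card (Gam G m j).G * Nat.card (G (j + 1)).G ≤ m j := by
  refine ⟨fun j => 8 ^ (j + 1) * Nat.card (GamE G j).G * Nat.card (G (j + 1)).G, ?_⟩
  have key : ∀ j, Gam G (fun j => 8 ^ (j + 1) * Nat.card (GamE G j).G * Nat.card (G (j + 1)).G) j =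
      GamE G j := by
    intro j
    induction j with
    | zero => rfl
    | succ j ih =>
      rw [Gam, GamE, ih]
  intro j
  rw [key]

/-- All finite groups in one sequence. -/
theorem exists_enum : ∃ G : ℕ → FG, ∀ (H : Type) [Group H] [Finite H],
    ∃ i, Nonempty (H ≃* (G i).G) := by
  -- multiplication tables
  let T := Σ n : ℕ, (Fin n → Fin n → Fin n)
  let good : T → Prop := fun t => ∃ (X : FG) (e : X.G ≃ Fin t.1), ∀ x y, e (x * y) = t.2 (e x) (e y)
  have hc : Countable T := inferInstance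
  have hne : Nonempty T := ⟨⟨0, fun a _ => a⟩⟩
  obtain ⟨s, hs⟩ := exists_surjective_nat T
  let tr : FG := ⟨Multiplicative (ZMod 1)⟩
  refine ⟨fun i => if h : good (s i) then h.choose else tr, ?_⟩
  intro H _ _
  obtain ⟨n, ⟨e⟩⟩ := Finite.exists_equiv_fin H
  let t : T := ⟨n, fun a b => e (e.symm a * e.symm b)⟩
  have ht : good t := ⟨⟨H⟩, e, fun x y => by simp [t]⟩
  obtain ⟨i, hi⟩ := hs t
  refine ⟨i, ?_⟩
  have hg : good (s i) := by rw [hi]; exact ht
  have e1 : (if h : good (s i) then h.choose else tr) = hg.choose := dif_pos hg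
  change Nonempty (H ≃* (if h : good (s i) then h.choose else tr).G)
  rw [e1]
  obtain ⟨f, hf⟩ := hg.choose_spec
  -- transport
  have key : ∀ (u : T) (_ : u = t) (X : FG) (f : X.G ≃ Fin u.1)
      (_ : ∀ x y, f (x * y) = u.2 (f x) (f y)), Nonempty (H ≃* X.G) := by
    rintro u rfl X f hf
    refine ⟨MulEquiv.mk' (e.trans f.symm) ?_⟩
    intro x y
    simp only [Equiv.trans_apply]
    apply f.injective
    rw [hf, Equiv.apply_symm_apply, Equiv.apply_symm_apply, Equiv.apply_symm_apply]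
    simp [t]
  exact key (s i) hi _ f hf

/-! ### the zero-one law -/

/-- If `x i ≠ y i` for some `i`, then at most `(N+1)^n` of the vectors `e` of `n+1` exponents at most
`N` satisfy `∏ x i ^ e i = ∏ y i ^ e i`. -/
theorem zero_one_num {n : ℕ} (N : ℕ) (x y : Fin (n + 1) → ℕ) (hx : ∀ i, 0 < x i)
    (hy : ∀ i, 0 < y i) (i₀ : Fin (n + 1)) (h : x i₀ ≠ y i₀)
    (E : Set (Fin (n + 1) → Fin (N + 1)))
    (hE : ∀ e ∈ E, ∏ i, x i ^ (e i : ℕ) = ∏ i, y i ^ (e i : ℕ)) :
    Nat.card E ≤ (N + 1) ^ n := by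
  have hinj : Function.Injective (fun e : E => i₀.removeNth (α := fun _ => Fin (N + 1)) e.1) := by
    rintro ⟨e, he⟩ ⟨e', he'⟩ hee
    have hoff : ∀ j, e (i₀.succAbove j) = e' (i₀.succAbove j) := fun j => congrFun hee j
    have h1 := hE e he
    have h2 := hE e' he'
    rw [Fin.prod_univ_succAbove _ i₀, Fin.prod_univ_succAbove _ i₀] at h1 h2
    simp only [hoff] at h1
    set X := ∏ j, x (i₀.succAbove j) ^ (e' (i₀.succAbove j) : ℕ) with hX
    set Y := ∏ j, y (i₀.succAbove j) ^ (e' (i₀.succAbove j) : ℕ) with hY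
    have hX0 : 0 < X := Finset.prod_pos fun j _ => pow_pos (hx _) _
    have hY0 : 0 < Y := Finset.prod_pos fun j _ => pow_pos (hy _) _
    have hkey : ∀ u v : ℕ, u < v → x i₀ ^ u * X = y i₀ ^ u * Y → x i₀ ^ v * X = y i₀ ^ v * Y →
        False := by
      intro u v huv k1 k2
      obtain ⟨d, rfl⟩ := Nat.exists_eq_add_of_lt huv
      have k3 : x i₀ ^ (d + 1) * (x i₀ ^ u * X) = y i₀ ^ (d + 1) * (x i₀ ^ u * X) := by
        have : x i₀ ^ (u + d + 1) * X = x i₀ ^ (d + 1) * (x i₀ ^ u * X) := by ring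
        rw [← this, k2, k1]
        ring
      have k4 : 0 < x i₀ ^ u * X := Nat.mul_pos (pow_pos (hx _) _) hX0
      have k5 := Nat.eq_of_mul_eq_mul_right k4 k3
      exact h (Nat.pow_left_injective (by omega) k5)
    have hi0 : e i₀ = e' i₀ := by
      apply Fin.ext
      by_contra hne
      rcases Nat.lt_or_gt_of_ne hne with hlt | hlt
      · exact hkey _ _ hlt h1 h2
      · exact hkey _ _ hlt h2 h1
    apply Subtype.ext
    funext i
    rcases eq_or_ne i i₀ with rfl | hi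
    · exact hi0
    · obtain ⟨j, rfl⟩ := Fin.exists_succAbove_eq hi
      exact hoff j
  have h1 := Nat.card_le_card_of_injective _ hinj
  have h2 : Nat.card (Fin n → Fin (N + 1)) = (N + 1) ^ n := by simp
  exact h1.trans h2.le

theorem zero_one {p : ℕ} [Fact p.Prime] (A : Subgroup (RingAut ℂ)) {n : ℕ} (N : ℕ)
    (G : Fin (n + 1) → FG)
    (h : (N + 1) ^ n < Nat.card {e : Fin (n + 1) → Fin (N + 1) //
      MG p A (∀ i, (Fin (e i) → (G i).G))}) (i : Fin (n + 1)) : MG p A (G i).G := by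
  rw [MG_iff]
  intro K hK
  by_contra hne
  have h1 := zero_one_num N (fun i => kP p (K : Set (RingAut ℂ)) (G i).G)
    (fun i => kN p (K : Set (RingAut ℂ)) (G i).G) (fun i => kP_pos Fact.out _ _)
    (fun i => kN_pos _ _) i hne {e | MG p A (∀ i, (Fin (e i) → (G i).G))} (by
      intro e he
      have h2 := (MG_iff A _).1 he K hK
      have h3 := (mulFun_kP (p := p) (K : Set (RingAut ℂ))).pi
        (fun i => (Fin (e i : ℕ) → (G i).G))
      have h4 := (mulFun_kN (p := p) (K : Set (RingAut ℂ))).pi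
        (fun i => (Fin (e i : ℕ) → (G i).G))
      rw [h3, h4] at h2
      have h5 : ∀ i, kP p (K : Set (RingAut ℂ)) (Fin (e i : ℕ) → (G i).G) =
          kP p (K : Set (RingAut ℂ)) (G i).G ^ (e i : ℕ) := fun i =>
        (mulFun_kP (p := p) (K : Set (RingAut ℂ))).pow (e i : ℕ) (G i).G
      have h6 : ∀ i, kN p (K : Set (RingAut ℂ)) (Fin (e i : ℕ) → (G i).G) =
          kN p (K : Set (RingAut ℂ)) (G i).G ^ (e i : ℕ) := fun i =>
        (mulFun_kN (p := p) (K : Set (RingAut ℂ))).pow (e i : ℕ) (G i).G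
      simp only [h5, h6] at h2
      exact h2)
  exact absurd h1 (not_le.2 h)

end Pool.Agent.Helper13.MG
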