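import Mathlib

/-!
# One sequence of products: the numerical part
-/

set_option autoImplicit false

namespace Pool.Agent.Helper13.MG

/-- Different positive integers `a, b ≤ n` have logarithms at distance at least `1 / n`. -/
theorem log_sep {a b n : ℕ} (ha : 0 < a) (hb : 0 < b) (han : a ≤ n) (hbn : b ≤ n) (h : a ≠ b) :
    1 / (n : ℝ) ≤ |Real.log a - Real.log b| := by
  wlog hab : b < a generalizing a b
  · rw [abs_sub_comm]
    exact this hb ha hbn han h.symm (by omega)
  have ha' : (0 : ℝ) < a := by exact_mod_cast ha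
  have hb' : (0 : ℝ) < b := by exact_mod_cast hb
  have hn' : (0 : ℝ) < n := lt_of_lt_of_le ha' (by exact_mod_cast han)
  have h1 : Real.log a - Real.log b = - Real.log ((b : ℝ) / a) := by
    rw [Real.log_div hb'.ne' ha'.ne']
    ring
  have h2 : Real.log ((b : ℝ) / a) ≤ (b : ℝ) / a - 1 := Real.log_le_sub_one_of_pos (by positivity)
  have h3 : (b : ℝ) + 1 ≤ a := by exact_mod_cast hab
  have h4 : (b : ℝ) / a - 1 ≤ - (1 / (n : ℝ)) := by
    have h5 : (b : ℝ) / a - 1 = (b - a) / a := by field_simp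
    rw [h5, ← neg_div, div_le_div_iff₀ ha' hn']
    have h6 : (a : ℝ) ≤ n := by exact_mod_cast han
    nlinarith
  rw [h1]
  exact le_trans (by linarith) (le_abs_self _)

theorem log_nat_le {n : ℕ} : Real.log n ≤ n := by
  rcases Nat.eq_zero_or_pos n with rfl | h
  · simp
  · have h1 : (0 : ℝ) < n := by exact_mod_cast h
    linarith [Real.log_le_sub_one_of_pos h1]

/-- The numbers attached to one sequence of products. -/
structure Tower (n g m : ℕ → ℕ) (a b x y : ℕ → ℕ) : Prop where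
  n0 : n 0 = g 0
  ns : ∀ j, n (j + 1) = n j ^ m j * g (j + 1)
  a0 : a 0 = x 0
  as : ∀ j, a (j + 1) = a j ^ m j * x (j + 1)
  b0 : b 0 = y 0
  bs : ∀ j, b (j + 1) = b j ^ m j * y (j + 1)
  hx : ∀ j, 0 < x j ∧ x j ≤ g j
  hy : ∀ j, 0 < y j ∧ y j ≤ g j
  hm : ∀ j, 8 ^ (j + 1) * n j * g (j + 1) ≤ m j

variable {n g m a b x y : ℕ → ℕ}

theorem Tower.g_pos (T : Tower n g m a b x y) (j : ℕ) : 0 < g j :=
  lt_of_lt_of_le (T.hx j).1 (T.hx j).2

theorem Tower.a_bd (T : Tower n g m a b x y) (j : ℕ) : 0 < a j ∧ a j ≤ n j := by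
  induction j with
  | zero => rw [T.a0, T.n0]; exact T.hx 0
  | succ j ih =>
    rw [T.as, T.ns]
    exact ⟨Nat.mul_pos (pow_pos ih.1 _) (T.hx _).1,
      Nat.mul_le_mul (Nat.pow_le_pow_left ih.2 _) (T.hx _).2⟩

theorem Tower.b_bd (T : Tower n g m a b x y) (j : ℕ) : 0 < b j ∧ b j ≤ n j := by
  induction j with
  | zero => rw [T.b0, T.n0]; exact T.hy 0
  | succ j ih =>
    rw [T.bs, T.ns]
    exact ⟨Nat.mul_pos (pow_pos ih.1 _) (T.hy _).1,
      Nat.mul_le_mul (Nat.pow_le_pow_left ih.2 _) (T.hy _).2⟩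

/-- The distance of the two numbers in step `j`. -/
noncomputable def Ld (a b : ℕ → ℕ) (j : ℕ) : ℝ := |Real.log (a j) - Real.log (b j)|

theorem Tower.step (T : Tower n g m a b x y) (j : ℕ) (h : a j ≠ b j) :
    (1 - (1 / 8 : ℝ) ^ (j + 1)) * (m j * Ld a b j) ≤ Ld a b (j + 1) ∧
      Real.log (n (j + 1)) ≤ (1 + (1 / 8 : ℝ) ^ (j + 1)) * (m j * Real.log (n j)) ∧
      1 ≤ m j ∧ 0 < Real.log (n j) := by
  obtain ⟨ha, han⟩ := T.a_bd j
  obtain ⟨hb, hbn⟩ := T.b_bd j
  have hn : 2 ≤ n j := by omega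
  have hg := T.g_pos (j + 1)
  have hm := T.hm j
  have hsep := log_sep ha hb han hbn h
  have hn' : (2 : ℝ) ≤ n j := by exact_mod_cast hn
  have hn0 : (0 : ℝ) < n j := by linarith
  have hg' : (1 : ℝ) ≤ g (j + 1) := by exact_mod_cast hg
  have hm' : (8 : ℝ) ^ (j + 1) * n j * g (j + 1) ≤ m j := by exact_mod_cast hm
  have h8 : (0 : ℝ) < (8 : ℝ) ^ (j + 1) := by positivity
  have h8' : (1 / 8 : ℝ) ^ (j + 1) = ((8 : ℝ) ^ (j + 1))⁻¹ := by
    rw [one_div, inv_pow]
  have hlogn : (1 / 2 : ℝ) ≤ Real.log (n j) := by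
    have h1 : Real.log 2 ≤ Real.log (n j) := Real.log_le_log (by norm_num) hn'
    have h2 := Real.log_two_gt_d9
    linarith
  have hlg : Real.log (g (j + 1)) ≤ g (j + 1) := log_nat_le
  have hlg0 : 0 ≤ Real.log (g (j + 1)) := Real.log_nonneg hg'
  -- the key inequality: log g ≤ 8^{-(j+1)} m / n
  have hkey : (g (j + 1) : ℝ) ≤ (1 / 8 : ℝ) ^ (j + 1) * (m j * (1 / n j)) := by
    rw [h8']
    have : (g (j + 1) : ℝ) = ((8 : ℝ) ^ (j + 1))⁻¹ * (((8 : ℝ) ^ (j + 1) * n j * g (j + 1)) * (1 / n j)) := by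
      field_simp
    rw [this]
    gcongr
  have hLs : 1 / (n j : ℝ) ≤ Ld a b j := hsep
  have hm0 : (0 : ℝ) ≤ m j := Nat.cast_nonneg _
  have ht0 : (0 : ℝ) ≤ (1 / 8 : ℝ) ^ (j + 1) := by positivity
  refine ⟨?_, ?_, ?_, by linarith⟩
  · have hax := (T.hx (j + 1))
    have hby := (T.hy (j + 1))
    have e1 : Real.log (a (j + 1)) = m j * Real.log (a j) + Real.log (x (j + 1)) := by
      rw [T.as]
      push_cast
      rw [Real.log_mul (by positivity) (by exact_mod_cast hax.1.ne'), Real.log_pow]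
    have e2 : Real.log (b (j + 1)) = m j * Real.log (b j) + Real.log (y (j + 1)) := by
      rw [T.bs]
      push_cast
      rw [Real.log_mul (by positivity) (by exact_mod_cast hby.1.ne'), Real.log_pow]
    have e3 : |Real.log (x (j + 1)) - Real.log (y (j + 1))| ≤ Real.log (g (j + 1)) := by
      have x1 : 0 ≤ Real.log (x (j + 1)) := Real.log_nonneg (by exact_mod_cast hax.1)
      have y1 : 0 ≤ Real.log (y (j + 1)) := Real.log_nonneg (by exact_mod_cast hby.1)
      have x2 : Real.log (x (j + 1)) ≤ Real.log (g (j + 1)) :=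
        Real.log_le_log (by exact_mod_cast hax.1) (by exact_mod_cast hax.2)
      have y2 : Real.log (y (j + 1)) ≤ Real.log (g (j + 1)) :=
        Real.log_le_log (by exact_mod_cast hby.1) (by exact_mod_cast hby.2)
      rw [abs_le]
      constructor <;> linarith
    have e4 : m j * Ld a b j - |Real.log (x (j + 1)) - Real.log (y (j + 1))| ≤ Ld a b (j + 1) := by
      unfold Ld
      rw [e1, e2]
      have e5 : (m j : ℝ) * |Real.log (a j) - Real.log (b j)| =
          |(m j : ℝ) * Real.log (a j) + Real.log (x (j + 1)) -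
            (m j * Real.log (b j) + Real.log (y (j + 1))) -
            (Real.log (x (j + 1)) - Real.log (y (j + 1)))| := by
        rw [← abs_of_nonneg hm0, ← abs_mul, abs_of_nonneg hm0]
        congr 1
        ring
      rw [e5]
      have := abs_sub ((m j : ℝ) * Real.log (a j) + Real.log (x (j + 1)) -
            (m j * Real.log (b j) + Real.log (y (j + 1)))) (Real.log (x (j + 1)) - Real.log (y (j + 1)))
      linarith
    have e6 : (1 / 8 : ℝ) ^ (j + 1) * (m j * (1 / n j)) ≤ (1 / 8 : ℝ) ^ (j + 1) * (m j * Ld a b j) := by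
      gcongr
    nlinarith
  · have e1 : Real.log (n (j + 1)) = m j * Real.log (n j) + Real.log (g (j + 1)) := by
      rw [T.ns]
      push_cast
      rw [Real.log_mul (by positivity) (by positivity), Real.log_pow]
    have e2 : 1 / (n j : ℝ) ≤ Real.log (n j) := by
      have : 1 / (n j : ℝ) ≤ 1 / 2 := one_div_le_one_div_of_le (by norm_num) hn'
      linarith
    have e6 : (1 / 8 : ℝ) ^ (j + 1) * (m j * (1 / n j)) ≤
        (1 / 8 : ℝ) ^ (j + 1) * (m j * Real.log (n j)) := by
      gcongr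
    rw [e1]
    nlinarith
  · have h1 : 1 ≤ 8 ^ (j + 1) * n j * g (j + 1) :=
      Nat.mul_pos (Nat.mul_pos (by positivity) (by omega)) hg
    omega

/-- A difference in step `i` persists and is at least a fixed power of the order. -/
theorem Tower.persist (T : Tower n g m a b x y) (i : ℕ) (h : a i ≠ b i) :
    ∃ c : ℝ, 0 < c ∧ ∀ j, i ≤ j → a j ≠ b j ∧ 0 < Real.log (n j) ∧
      c * Real.log (n j) ≤ Ld a b j := by
  have h0 := T.step i h
  have hL0 : 0 < Ld a b i := by
    obtain ⟨ha, han⟩ := T.a_bd i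
    obtain ⟨hb, hbn⟩ := T.b_bd i
    have h1 := log_sep ha hb han hbn h
    have h2 : (0 : ℝ) < 1 / n i := by
      have : 0 < n i := by omega
      positivity
    exact lt_of_lt_of_le h2 h1
  have hn0 := h0.2.2.2
  refine ⟨Ld a b i / (2 * Real.log (n i)), by positivity, ?_⟩
  set c := Ld a b i / (2 * Real.log (n i)) with hc
  have hc0 : 0 < c := by positivity
  -- the stronger induction hypothesis
  have key : ∀ j, i ≤ j → a j ≠ b j ∧ 0 < Real.log (n j) ∧
      c * (1 + (1 / 2 : ℝ) ^ j) * Real.log (n j) ≤ Ld a b j := by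
    intro j hj
    induction j, hj using Nat.le_induction with
    | base =>
      refine ⟨h, hn0, ?_⟩
      have e : c * 2 * Real.log (n i) = Ld a b i := by
        rw [hc]; field_simp
      have e1 : (1 / 2 : ℝ) ^ i ≤ 1 := pow_le_one₀ (by norm_num) (by norm_num)
      rw [← e]
      gcongr
      linarith
    | succ j hj ih =>
      obtain ⟨hne, hlog, hle⟩ := ih
      obtain ⟨s1, s2, s3, s4⟩ := T.step j hne
      have hm1 : (1 : ℝ) ≤ m j := by exact_mod_cast s3
      have hLpos : 0 < Ld a b (j + 1) := by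
        have h1 : (1 / 8 : ℝ) ^ (j + 1) ≤ 1 / 8 := by
          calc (1 / 8 : ℝ) ^ (j + 1) ≤ (1 / 8 : ℝ) ^ 1 :=
                pow_le_pow_of_le_one (by norm_num) (by norm_num) (by omega)
            _ = 1 / 8 := pow_one _
        have h2 : 0 < Ld a b j := lt_of_lt_of_le (by positivity) hle
        have h3 : 0 < (1 - (1 / 8 : ℝ) ^ (j + 1)) * (m j * Ld a b j) := by
          apply mul_pos
          · linarith
          · positivity
        linarith
      have hne' : a (j + 1) ≠ b (j + 1) := by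
        intro e
        unfold Ld at hLpos
        rw [e, sub_self, abs_zero] at hLpos
        exact lt_irrefl _ hLpos
      obtain ⟨-, -, -, t4⟩ := T.step (j + 1) hne'
      refine ⟨hne', t4, ?_⟩
      -- s = 2^{-(j+1)}
      set s : ℝ := (1 / 2 : ℝ) ^ (j + 1) with hs
      have hs0 : 0 < s := by positivity
      have hs1 : s ≤ 1 / 2 := by
        calc s ≤ (1 / 2 : ℝ) ^ 1 :=
                pow_le_pow_of_le_one (by norm_num) (by norm_num) (by omega)
            _ = 1 / 2 := pow_one _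
      have hs8 : (1 / 8 : ℝ) ^ (j + 1) = s ^ 3 := by
        rw [hs, ← pow_mul, mul_comm, pow_mul]
        norm_num
      have hs2 : (1 / 2 : ℝ) ^ j = 2 * s := by
        rw [hs, pow_succ]
        ring
      rw [hs8] at s1 s2
      rw [hs2] at hle
      have q1 : (1 + s) * (1 + s ^ 3) ≤ (1 + 2 * s) * (1 - s ^ 3) := by
        have : 0 ≤ s * (1 - 2 * s ^ 2 - 3 * s ^ 3) := by
          apply mul_nonneg hs0.le
          nlinarith [mul_pos hs0 hs0, mul_nonneg hs0.le (sub_nonneg.2 hs1),
            mul_nonneg (mul_pos hs0 hs0).le (sub_nonneg.2 hs1)]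
        nlinarith
      have h3 : 0 ≤ 1 - s ^ 3 := by
        have : s ^ 3 ≤ 1 := pow_le_one₀ hs0.le (by linarith)
        linarith
      calc c * (1 + s) * Real.log (n (j + 1))
          ≤ c * (1 + s) * ((1 + s ^ 3) * (m j * Real.log (n j))) := by gcongr
        _ = c * ((1 + s) * (1 + s ^ 3)) * (m j * Real.log (n j)) := by ring
        _ ≤ c * ((1 + 2 * s) * (1 - s ^ 3)) * (m j * Real.log (n j)) := by gcongr
        _ = (1 - s ^ 3) * (m j * (c * (1 + 2 * s) * Real.log (n j))) := by ring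
        _ ≤ (1 - s ^ 3) * (m j * Ld a b j) := by gcongr
        _ ≤ _ := s1
  intro j hj
  obtain ⟨h1, h2, h3⟩ := key j hj
  refine ⟨h1, h2, le_trans ?_ h3⟩
  have e1 : (0 : ℝ) ≤ (1 / 2 : ℝ) ^ j := by positivity
  gcongr
  nlinarith

/-- If all numbers agree at step `j`, then the factors up to `j` agree. -/
theorem Tower.factors (T : Tower n g m a b x y) (h : ∀ j, a j = b j) (j : ℕ) : x j = y j := by
  cases j with
  | zero => rw [← T.a0, ← T.b0]; exact h 0
  | succ j =>
    have h1 := h (j + 1)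
    rw [T.as, T.bs, h j] at h1
    exact Nat.eq_of_mul_eq_mul_left (pow_pos (T.b_bd j).1 _) h1

/-- If for every `ε` there are infinitely many `j` with `a j`, `b j` equal up to `n j ^ ε` then
`x j = y j` for all `j`. -/
theorem Tower.main (T : Tower n g m a b x y)
    (h : ∀ ε : ℝ, 0 < ε → ∀ i : ℕ, ∃ j, i ≤ j ∧ (a j : ℝ) ≤ (n j : ℝ) ^ ε * b j ∧
      (b j : ℝ) ≤ (n j : ℝ) ^ ε * a j) (j : ℕ) : x j = y j := by
  refine T.factors (fun i => ?_) j
  by_contra hne
  obtain ⟨c, hc, hp⟩ := T.persist i hne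
  obtain ⟨k, hk, h1, h2⟩ := h (c / 2) (by positivity) i
  obtain ⟨-, hlog, hL⟩ := hp k hk
  have ha : (0 : ℝ) < a k := by exact_mod_cast (T.a_bd k).1
  have hb : (0 : ℝ) < b k := by exact_mod_cast (T.b_bd k).1
  have hn : (0 : ℝ) < n k := by
    have := (T.a_bd k)
    exact_mod_cast lt_of_lt_of_le this.1 this.2
  have k1 : Real.log (a k) ≤ c / 2 * Real.log (n k) + Real.log (b k) := by
    have := Real.log_le_log ha h1
    rwa [Real.log_mul (by positivity) hb.ne', Real.log_rpow hn] at this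
  have k2 : Real.log (b k) ≤ c / 2 * Real.log (n k) + Real.log (a k) := by
    have := Real.log_le_log hb h2
    rwa [Real.log_mul (by positivity) ha.ne', Real.log_rpow hn] at this
  have k3 : Ld a b k ≤ c / 2 * Real.log (n k) := by
    unfold Ld
    rw [abs_le]
    constructor <;> linarith
  nlinarith

end Pool.Agent.Helper13.MG
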