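import Pool.Graph.R_pool_sql_team_seeded_b0a926ef.R893.TP2.FinMG2
import Pool.Graph.R_pool_sql_team_seeded_b0a926ef.R893.TP2.All2
import Pool.Agent.Helper13.MG.Num

/-!
# Numbers of fixed characters of direct products
-/

set_option autoImplicit false

open scoped Classical

namespace Pool.Agent.Helper13.MG

open Pool.Agent.R893.TP2 Pool.Agent.H254R3.IN Pool.Agent.Helper884

/-- The normalizer of a Sylow subgroup. -/
abbrev Nor {p : ℕ} {G : Type} [Group G] (P : Sylow p G) : Subgroup G :=
  Subgroup.normalizer ((P : Subgroup G) : Set G)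

/-- A finite group. -/
structure FG where
  /-- the group -/
  (G : Type)
  /-- the multiplication -/
  [grp : Group G]
  /-- it is finite -/
  [fin : Finite G]

instance (X : FG) : Group X.G := X.grp
instance (X : FG) : Finite X.G := X.fin

/-- For every Sylow `p`-subgroup `P` of `G` there is a bijection from the irreducible characters of
`G` of degree prime to `p` onto those of `N_G(P)` which commutes with the action of `A`. -/
def MG (p : ℕ) (A : Subgroup (RingAut ℂ)) (G : Type) [Group G] : Prop :=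
  ∀ P : Sylow p G, ∃ f : IrrP p G ≃ IrrP p (Nor P), Equivar (A : Set (RingAut ℂ)) f

/-! ### bounds -/

theorem irr_one (G : Type) [Group G] : IsIrr (fun _ : G => (1 : ℂ)) := by
  refine ⟨ℂ, inferInstance, inferInstance, inferInstance, Representation.trivial ℂ G ℂ, ?_, ?_⟩
  · have key : ∀ U : Subrepresentation (Representation.trivial ℂ G ℂ), U = ⊥ ∨ U = ⊤ := by
      intro U
      rcases eq_bot_or_eq_top U.toSubmodule with h | h
      · left
        apply Subrepresentation.toSubmodule_injective
        rw [h]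
        rfl
      · right
        apply Subrepresentation.toSubmodule_injective
        rw [h]
        rfl
    have hne : (⊥ : Subrepresentation (Representation.trivial ℂ G ℂ)) ≠ ⊤ := by
      intro h
      have h1 := congrArg Subrepresentation.toSubmodule h
      have h2 : (⊥ : Submodule ℂ ℂ) = ⊤ := h1
      exact bot_ne_top h2
    exact { exists_pair_ne := ⟨⊥, ⊤, hne⟩, eq_bot_or_eq_top := key }
  · funext g
    simp [Representation.character]

theorem kP_pos {p : ℕ} (hp : p.Prime) (S : Set (ℂ ≃+* ℂ)) (G : Type) [Group G] [Finite G] :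
    0 < kP p S G := by
  have hfin : Finite (IrrPF p S G) := finite_irr _ (fun χ hχ => hχ.1.1)
  have : Nonempty (IrrPF p S G) := by
    refine ⟨⟨fun _ => 1, ⟨irr_one G, 1, by simp, ?_⟩, ?_⟩⟩
    · exact hp.one_lt.ne' ∘ Nat.dvd_one.1
    · intro σ _ g
      exact map_one σ
  exact Nat.card_pos

theorem irr_card_le (G : Type) [Group G] [Fintype G] : (IC.Irr G).card ≤ Fintype.card G := by
  have hli : LinearIndependent ℂ (fun x : IC.Irr G => (x : G → ℂ)) := by
    rw [linearIndependent_iff']
    intro s c hc i hi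
    have h1 := congrArg (fun F => IC.B F i.1) hc
    rw [IC.B_sum_left] at h1
    simp only [IC.B_smul_left] at h1
    rw [Finset.sum_eq_single i] at h1
    · rw [IC.B_irr (IC.mem_Irr.1 i.2) (IC.mem_Irr.1 i.2), if_pos rfl, mul_one] at h1
      rw [h1]
      simp [IC.B]
    · intro j _ hj
      rw [IC.B_irr (IC.mem_Irr.1 j.2) (IC.mem_Irr.1 i.2), if_neg (fun h => hj (Subtype.ext h)),
        mul_zero]
    · intro h
      exact absurd hi h
  have h2 := hli.fintype_card_le_finrank
  rw [Module.finrank_fintype_fun_eq_card] at h2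
  simpa using h2

theorem kP_le (p : ℕ) (S : Set (ℂ ≃+* ℂ)) (G : Type) [Group G] [Finite G] :
    kP p S G ≤ Nat.card G := by
  have := Fintype.ofFinite G
  have h1 : kP p S G ≤ Nat.card (IC.Irr G) := by
    refine Nat.card_le_card_of_injective
      (fun χ : IrrPF p S G => (⟨χ.1, by exact mem_Irr.2 χ.2.1.1⟩ : IC.Irr G)) ?_
    intro χ ψ h
    have h3 := congrArg (fun z : IC.Irr G => (z : G → ℂ)) h
    exact Subtype.ext h3
  refine h1.trans ?_
  rw [Nat.card_eq_fintype_card, Fintype.card_coe, Nat.card_eq_fintype_card]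
  exact irr_card_le G

theorem kP_congr {p : ℕ} (S : Set (ℂ ≃+* ℂ)) {G H : Type} [Group G] [Group H] [Finite G]
    [Finite H] (e : H ≃* G) : kP p S H = kP p S G := piso G H e p S

theorem kP_prod {p : ℕ} (hp : p.Prime) (S : Set (ℂ ≃+* ℂ)) (G H : Type) [Group G] [Group H]
    [Finite G] [Finite H] : kP p S (G × H) = kP p S G * kP p S H := hPF G H p S hp

/-! ### Sylow subgroups -/

theorem nor_map {p : ℕ} {G H : Type} [Group G] [Group H] (e : G ≃* H) (P : Sylow p G)
    (Q : Sylow p H) (h : (Q : Subgroup H) = (P : Subgroup G).map e.toMonoidHom) :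
    Nonempty (Nor P ≃* Nor Q) := by
  have h1 : Nor Q = (Nor P).map e.toMonoidHom := by
    unfold Nor
    rw [h]
    exact (Subgroup.map_equiv_normalizer_eq (P : Subgroup G) e).symm
  rw [h1]
  exact ⟨e.subgroupMap (Nor P)⟩

theorem sylow_map {p : ℕ} [Fact p.Prime] {G H : Type} [Group G] [Group H] [Finite G] [Finite H]
    (e : G ≃* H) (P : Sylow p G) :
    ∃ Q : Sylow p H, (Q : Subgroup H) = (P : Subgroup G).map e.toMonoidHom := by
  refine ⟨Sylow.ofCard ((P : Subgroup G).map e.toMonoidHom) ?_, rfl⟩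
  rw [Subgroup.card_map_of_injective (by exact e.injective), ← Nat.card_congr e.toEquiv]
  exact P.card_eq_multiplicity

theorem kN_indep {p : ℕ} [Fact p.Prime] (S : Set (ℂ ≃+* ℂ)) {G : Type} [Group G] [Finite G]
    (P Q : Sylow p G) : kP p S (Nor P) = kP p S (Nor Q) := by
  obtain ⟨g, hg⟩ := MulAction.exists_smul_eq G P Q
  have h : (Q : Subgroup G) = (P : Subgroup G).map (MulAut.conj g).toMonoidHom := by
    rw [← hg]
    rfl
  obtain ⟨e⟩ := nor_map (MulAut.conj g) P Q h
  exact kP_congr S e

/-- The number of the characters of `N_G(P)` of degree prime to `p` fixed by `S`. -/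
noncomputable def kN (p : ℕ) (S : Set (ℂ ≃+* ℂ)) (G : Type) [Group G] : ℕ :=
  kP p S (Nor (Classical.arbitrary (Sylow p G)))

theorem kN_eq {p : ℕ} [Fact p.Prime] (S : Set (ℂ ≃+* ℂ)) {G : Type} [Group G] [Finite G]
    (P : Sylow p G) : kN p S G = kP p S (Nor P) := kN_indep S _ _

theorem kN_congr {p : ℕ} [Fact p.Prime] (S : Set (ℂ ≃+* ℂ)) {G H : Type} [Group G] [Group H]
    [Finite G] [Finite H] (e : H ≃* G) : kN p S H = kN p S G := by
  obtain ⟨P⟩ : Nonempty (Sylow p H) := inferInstance
  obtain ⟨Q, hQ⟩ := sylow_map e P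
  obtain ⟨f⟩ := nor_map e P Q hQ
  rw [kN_eq S P, kN_eq S Q]
  exact kP_congr S f

theorem kN_prod {p : ℕ} [Fact p.Prime] (S : Set (ℂ ≃+* ℂ)) (G H : Type) [Group G] [Group H]
    [Finite G] [Finite H] : kN p S (G × H) = kN p S G * kN p S H := by
  obtain ⟨P⟩ : Nonempty (Sylow p G) := inferInstance
  obtain ⟨Q⟩ : Nonempty (Sylow p H) := inferInstance
  have hc : Nat.card ((P : Subgroup G).prod (Q : Subgroup H)) =
      p ^ (Nat.card (G × H)).factorization p := by
    rw [card_prod', Nat.card_prod, Nat.factorization_mul Nat.card_pos.ne' Nat.card_pos.ne',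
      Finsupp.add_apply, pow_add]
    rw [← P.card_eq_multiplicity, ← Q.card_eq_multiplicity]
  let R : Sylow p (G × H) := Sylow.ofCard _ hc
  have hR : (R : Subgroup (G × H)) = (P : Subgroup G).prod (Q : Subgroup H) := rfl
  obtain ⟨e, -, -⟩ := norm G H (P : Subgroup G) (Q : Subgroup H)
  rw [kN_eq S R, kN_eq S P, kN_eq S Q]
  have e' : Nor R ≃* Nor P × Nor Q := e
  rw [kP_congr S e', kP_prod Fact.out]

theorem kN_pos {p : ℕ} [Fact p.Prime] (S : Set (ℂ ≃+* ℂ)) (G : Type) [Group G] [Finite G] :
    0 < kN p S G := kP_pos Fact.out S _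

theorem kN_le (p : ℕ) (S : Set (ℂ ≃+* ℂ)) (G : Type) [Group G] [Finite G] :
    kN p S G ≤ Nat.card G := (kP_le p S _).trans (Subgroup.card_le_card_group _)

theorem MG_iff {p : ℕ} [Fact p.Prime] (A : Subgroup (RingAut ℂ)) (G : Type) [Group G]
    [Finite G] : MG p A G ↔ ∀ K : Subgroup (RingAut ℂ), K ≤ A →
      kP p (K : Set (RingAut ℂ)) G = kN p (K : Set (RingAut ℂ)) G := by
  constructor
  · intro h K hK
    obtain ⟨P⟩ : Nonempty (Sylow p G) := inferInstance
    obtain ⟨f, hf⟩ := h P
    rw [kN_eq (K : Set (RingAut ℂ)) P]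
    exact card_fix_of_equivar (A : Set (RingAut ℂ)) (stable_irrP tw p G _) f hf _ hK
  · intro h P
    haveI : Finite (IrrP p G) := finite_irr _ (fun χ hχ => hχ.1)
    haveI : Finite (IrrP p (Nor P)) := finite_irr _ (fun χ hχ => hχ.1)
    apply equivar_of_card mark A (stable_irrP tw p G _) (stable_irrP tw p _ _)
    intro K hK
    have := h K hK
    rw [kN_eq (K : Set (RingAut ℂ)) P] at this
    exact this

/-! ### multiplicative functions -/

/-- A positive function on finite groups which is multiplicative on direct products. -/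
structure MulFun (F : ∀ (G : Type) [Group G] [Finite G], ℕ) : Prop where
  pos : ∀ (G : Type) [Group G] [Finite G], 0 < F G
  congr : ∀ {G H : Type} [Group G] [Finite G] [Group H] [Finite H], (H ≃* G) → F H = F G
  prod : ∀ (G H : Type) [Group G] [Finite G] [Group H] [Finite H], F (G × H) = F G * F H

/-- `∏_{i ≤ n} G i = G 0 × ∏_{i < n} G (i + 1)` -/
def consE {n : ℕ} (G : Fin (n + 1) → Type) [∀ i, Group (G i)] :
    (∀ i, G i) ≃* G 0 × (∀ i : Fin n, G i.succ) where
  toFun f := (f 0, fun i => f i.succ)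
  invFun x := Fin.cons x.1 x.2
  left_inv f := by
    funext i
    refine Fin.cases ?_ (fun i => ?_) i <;> simp
  right_inv x := by
    rcases x with ⟨a, b⟩
    simp
  map_mul' f g := rfl

variable {F : ∀ (G : Type) [Group G] [Finite G], ℕ}

theorem MulFun.unique (h : MulFun F) (G : Type) [Group G] [Finite G] [Unique G] : F G = 1 := by
  have e : (G × G) ≃* G :=
    { toFun := fun x => x.1, invFun := fun x => (x, x), left_inv := fun x => Subsingleton.elim _ _,
      right_inv := fun x => rfl, map_mul' := fun x y => rfl }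
  have h1 := h.congr e
  rw [h.prod] at h1
  have h2 := h.pos G
  nlinarith

theorem MulFun.pi (h : MulFun F) : ∀ {n : ℕ} (G : Fin n → Type) [∀ i, Group (G i)]
    [∀ i, Finite (G i)], F (∀ i, G i) = ∏ i, F (G i) := by
  intro n
  induction n with
  | zero =>
    intro G _ _
    rw [h.unique]
    simp
  | succ n ih =>
    intro G _ _
    rw [h.congr (consE G), h.prod, ih, Fin.prod_univ_succ]

theorem MulFun.pow (h : MulFun F) (n : ℕ) (G : Type) [Group G] [Finite G] :
    F (Fin n → G) = F G ^ n := by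
  rw [h.pi (fun _ : Fin n => G)]
  simp

theorem mulFun_kP {p : ℕ} [Fact p.Prime] (S : Set (ℂ ≃+* ℂ)) :
    MulFun (fun G _ _ => kP p S G) where
  pos := fun G _ _ => kP_pos Fact.out S G
  congr := fun e => kP_congr S e
  prod := fun G H _ _ _ _ => kP_prod Fact.out S G H

theorem mulFun_kN {p : ℕ} [Fact p.Prime] (S : Set (ℂ ≃+* ℂ)) :
    MulFun (fun G _ _ => kN p S G) where
  pos := fun G _ _ => kN_pos S G
  congr := fun e => kN_congr S e
  prod := fun G H _ _ _ _ => kN_prod S G H

end Pool.Agent.Helper13.MG
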